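import Pool.Agent.Helper58.Qip.Stmts

set_option autoImplicit false

/-!
Packet I, first part: the finite dimensional characteristic functions of a Brownian motion.
-/

namespace Pool.Agent.Helper18.Qip

open MeasureTheory ProbabilityTheory Filter Topology
open Pool.Agent.Helper58.Qip
open scoped ENNReal NNReal

/-- The bilinear form of a matrix. -/
noncomputable def qf {d : ℕ} (D : Matrix (Fin d) (Fin d) ℝ) (x y : EuclideanSpace ℝ (Fin d)) : ℝ :=
  ∑ a, ∑ b, x a * D a b * y b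

section

variable {d : ℕ} {D : Matrix (Fin d) (Fin d) ℝ}

lemma qf_sum_left {ι : Type*} (s : Finset ι) (x : ι → EuclideanSpace ℝ (Fin d))
    (y : EuclideanSpace ℝ (Fin d)) : qf D (∑ j ∈ s, x j) y = ∑ j ∈ s, qf D (x j) y := by
  unfold qf
  have h : ∀ a b : Fin d, (∑ j ∈ s, x j) a * D a b * y b = ∑ j ∈ s, x j a * D a b * y b := by
    intro a b
    simp [Finset.sum_mul]
  simp_rw [h]
  calc ∑ a, ∑ b, ∑ j ∈ s, x j a * D a b * y b
      = ∑ a, ∑ j ∈ s, ∑ b, x j a * D a b * y b :=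
        Finset.sum_congr rfl fun a _ => Finset.sum_comm
    _ = ∑ j ∈ s, ∑ a, ∑ b, x j a * D a b * y b := Finset.sum_comm

lemma qf_sum_right {ι : Type*} (s : Finset ι) (x : EuclideanSpace ℝ (Fin d))
    (y : ι → EuclideanSpace ℝ (Fin d)) : qf D x (∑ j ∈ s, y j) = ∑ j ∈ s, qf D x (y j) := by
  unfold qf
  have h : ∀ a b : Fin d, x a * D a b * (∑ j ∈ s, y j) b = ∑ j ∈ s, x a * D a b * y j b := by
    intro a b
    simp [Finset.mul_sum]
  simp_rw [h]
  calc ∑ a, ∑ b, ∑ j ∈ s, x a * D a b * y j b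
      = ∑ a, ∑ j ∈ s, ∑ b, x a * D a b * y j b :=
        Finset.sum_congr rfl fun a _ => Finset.sum_comm
    _ = ∑ j ∈ s, ∑ a, ∑ b, x a * D a b * y j b := Finset.sum_comm

@[simp] lemma qf_zero_left (y : EuclideanSpace ℝ (Fin d)) : qf D 0 y = 0 := by simp [qf]
@[simp] lemma qf_zero_right (x : EuclideanSpace ℝ (Fin d)) : qf D x 0 = 0 := by simp [qf]

lemma sum_range_ite {M : Type*} [AddCommMonoid M] {j r : ℕ} (hj : j ≤ r) (f : ℕ → M) :
    ∑ k ∈ Finset.range r, (if k < j then f k else 0) = ∑ k ∈ Finset.range j, f k := by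
  rw [← Finset.sum_filter]
  congr 1
  ext k
  simp only [Finset.mem_filter, Finset.mem_range]
  omega

/-- Abel summation. -/
lemma abel_inner (r : ℕ) (θ b : ℕ → EuclideanSpace ℝ (Fin d)) (hb : b 0 = 0) :
    ∑ j ∈ Finset.range r, (inner ℝ (θ j) (b j) : ℝ) =
      ∑ k ∈ Finset.range r, (inner ℝ (∑ j ∈ Finset.range r, if k < j then θ j else 0)
        (b (k + 1) - b k) : ℝ) := by
  have h1 : ∀ k, (inner ℝ (∑ j ∈ Finset.range r, if k < j then θ j else 0)
        (b (k + 1) - b k) : ℝ) = ∑ j ∈ Finset.range r,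
          if k < j then (inner ℝ (θ j) (b (k + 1) - b k) : ℝ) else 0 := by
    intro k
    rw [sum_inner]
    refine Finset.sum_congr rfl fun j _ => ?_
    split_ifs <;> simp
  simp_rw [h1]
  rw [Finset.sum_comm]
  refine Finset.sum_congr rfl fun j hj => ?_
  rw [sum_range_ite (Finset.mem_range.1 hj).le, ← inner_sum, Finset.sum_range_sub, hb, sub_zero]

lemma abel_qf (r : ℕ) (θ : ℕ → EuclideanSpace ℝ (Fin d)) (t : ℕ → ℝ≥0) (ht : Monotone t)
    (ht0 : t 0 = 0) :
    ∑ k ∈ Finset.range r, ((t (k + 1) : ℝ) - t k) *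
        qf D (∑ j ∈ Finset.range r, if k < j then θ j else 0)
          (∑ j ∈ Finset.range r, if k < j then θ j else 0) =
      ∑ j ∈ Finset.range r, ∑ l ∈ Finset.range r,
        ((min (t j) (t l) : ℝ≥0) : ℝ) * qf D (θ j) (θ l) := by
  have h1 : ∀ k, ((t (k + 1) : ℝ) - t k) *
        qf D (∑ j ∈ Finset.range r, if k < j then θ j else 0)
          (∑ j ∈ Finset.range r, if k < j then θ j else 0) =
      ∑ j ∈ Finset.range r, ∑ l ∈ Finset.range r,
        if k < min j l then ((t (k + 1) : ℝ) - t k) * qf D (θ j) (θ l) else 0 := by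
    intro k
    rw [qf_sum_left, Finset.mul_sum]
    refine Finset.sum_congr rfl fun j _ => ?_
    rw [qf_sum_right, Finset.mul_sum]
    refine Finset.sum_congr rfl fun l _ => ?_
    by_cases hj : k < j
    · by_cases hl : k < l
      · simp [hj, hl]
      · simp [hl]
    · simp [hj]
  simp_rw [h1]
  rw [Finset.sum_comm]
  refine Finset.sum_congr rfl fun j hj => ?_
  rw [Finset.sum_comm]
  refine Finset.sum_congr rfl fun l hl => ?_
  have hj' := Finset.mem_range.1 hj
  rw [sum_range_ite (show min j l ≤ r by omega), ← Finset.sum_mul,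
    Finset.sum_range_sub (fun k => (t k : ℝ)), ht0]
  congr 1
  rw [ht.map_min]
  simp

end

section

variable {d : ℕ} {D : Matrix (Fin d) (Fin d) ℝ} {W : Type} [MeasurableSpace W]
  {B : ℝ≥0 → W → EuclideanSpace ℝ (Fin d)} {ν : Measure W}

lemma isProb (hB : IsBM D B ν) : IsProbabilityMeasure ν := by
  have h := (hB.law 0 0 le_rfl)
  have h1 : IsProbabilityMeasure (ν.map (B 0 - B 0)) := by
    rw [h.map_eq]
    infer_instance
  constructor
  have h2 := h1.measure_univ
  rwa [Measure.map_apply_of_aemeasurable h.aemeasurable MeasurableSet.univ, Set.preimage_univ] at h2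

lemma aemeas (hB : IsBM D B ν) (t : ℝ≥0) : AEMeasurable (B t) ν := by
  refine (hB.law 0 t zero_le).aemeasurable.congr ?_
  filter_upwards [hB.start] with w hw
  simp [hw]

lemma incr_charFun (hD : D.PosSemidef) (hB : IsBM D B ν) {s t : ℝ≥0} (hst : s ≤ t)
    (θ : EuclideanSpace ℝ (Fin d)) :
    ∫ w, Complex.exp (Complex.I * ((inner ℝ θ (B t w - B s w) : ℝ) : ℂ)) ∂ν =
      Complex.exp (((-(1 / 2) * (((t : ℝ) - s) * qf D θ θ) : ℝ)) : ℂ) := by
  have hl := hB.law s t hst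
  have hpsd : (((t : ℝ) - (s : ℝ)) • D).PosSemidef :=
    hD.smul (sub_nonneg.2 (NNReal.coe_le_coe.2 hst))
  have h1 := charFun_multivariateGaussian (μ := (0 : EuclideanSpace ℝ (Fin d))) hpsd θ
  rw [← hl.map_eq, charFun_apply, integral_map hl.aemeasurable (by fun_prop)] at h1
  rw [show (∫ w, Complex.exp (Complex.I * ((inner ℝ θ (B t w - B s w) : ℝ) : ℂ)) ∂ν) =
    ∫ w, Complex.exp (((inner ℝ ((B t - B s) w) θ : ℝ) : ℂ) * Complex.I) ∂ν from ?_, h1]
  · congr 1
    simp only [inner_zero_right, Complex.ofReal_zero, zero_mul, zero_sub]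
    have e : (θ.ofLp ⬝ᵥ (((t : ℝ) - s) • D).mulVec θ.ofLp) = ((t : ℝ) - s) * qf D θ θ := by
      simp only [dotProduct, Matrix.mulVec, Matrix.smul_apply, smul_eq_mul, qf, Finset.mul_sum]
      refine Finset.sum_congr rfl fun a _ => Finset.sum_congr rfl fun b _ => ?_
      ring
    rw [e]
    push_cast
    ring
  · refine integral_congr_ae (Filter.Eventually.of_forall fun w => ?_)
    simp only [Pi.sub_apply]
    rw [real_inner_comm, mul_comm]

/-- The characteristic function of the values of a Brownian motion along a monotone sequence. -/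
lemma bm_charFun (hD : D.PosSemidef) (hB : IsBM D B ν) (t : ℕ → ℝ≥0) (ht : Monotone t)
    (ht0 : t 0 = 0) (r : ℕ) (θ : ℕ → EuclideanSpace ℝ (Fin d)) :
    ∫ w, Complex.exp (Complex.I *
        ((∑ j ∈ Finset.range r, (inner ℝ (θ j) (B (t j) w) : ℝ) : ℝ) : ℂ)) ∂ν =
      Complex.exp (((-(1 / 2) * ∑ j ∈ Finset.range r, ∑ l ∈ Finset.range r,
        ((min (t j) (t l) : ℝ≥0) : ℝ) * qf D (θ j) (θ l) : ℝ)) : ℂ) := by
  set Θ : ℕ → EuclideanSpace ℝ (Fin d) := fun k => ∑ j ∈ Finset.range r, if k < j then θ j else 0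
    with hΘ
  have hind : iIndepFun (fun (i : Fin r) w => B (t ((i : ℕ) + 1)) w - B (t i) w) ν :=
    (hB.incr.nat ht).precomp (g := fun i : Fin r => (i : ℕ)) Fin.val_injective
  have hm : ∀ i : Fin r, AEMeasurable (fun w => B (t ((i : ℕ) + 1)) w - B (t i) w) ν :=
    fun i => (aemeas hB _).sub (aemeas hB _)
  have h1 := hind.integral_fun_prod_comp (𝕜 := ℂ)
    (f := fun (i : Fin r) x => Complex.exp (Complex.I * ((inner ℝ (Θ i) x : ℝ) : ℂ))) hm
    (fun i => by fun_prop)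
  have h2 : ∫ w, Complex.exp (Complex.I *
        ((∑ j ∈ Finset.range r, (inner ℝ (θ j) (B (t j) w) : ℝ) : ℝ) : ℂ)) ∂ν =
      ∫ w, ∏ i : Fin r, Complex.exp (Complex.I *
        ((inner ℝ (Θ i) (B (t ((i : ℕ) + 1)) w - B (t i) w) : ℝ) : ℂ)) ∂ν := by
    refine integral_congr_ae ?_
    filter_upwards [hB.start] with w hw
    rw [abel_inner r θ (fun j => B (t j) w) (by rw [ht0]; exact hw), ← Complex.exp_sum,
      ← Finset.mul_sum, Fin.sum_univ_eq_sum_range
        (fun k => ((inner ℝ (Θ k) (B (t (k + 1)) w - B (t k) w) : ℝ) : ℂ))]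
    push_cast
    rfl
  rw [h2, h1]
  have h3 : ∀ i : Fin r, ∫ w, Complex.exp (Complex.I *
        ((inner ℝ (Θ i) (B (t ((i : ℕ) + 1)) w - B (t i) w) : ℝ) : ℂ)) ∂ν =
      Complex.exp (((-(1 / 2) * (((t ((i : ℕ) + 1) : ℝ) - t i) * qf D (Θ i) (Θ i)) : ℝ)) : ℂ) :=
    fun i => incr_charFun hD hB (ht (Nat.le_succ _)) _
  simp_rw [h3]
  rw [← Complex.exp_sum, ← Complex.ofReal_sum, ← Finset.mul_sum,
    Fin.sum_univ_eq_sum_range (fun k => ((t (k + 1) : ℝ) - t k) * qf D (Θ k) (Θ k)),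
    abel_qf r θ t ht ht0]

end

end Pool.Agent.Helper18.Qip
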