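import Pool.Agent.Helper18.Qip.I1

set_option autoImplicit false

/-!
Packet I, second part: step discretisation and compactness.
-/

namespace Pool.Agent.Helper18.Qip

open MeasureTheory ProbabilityTheory Filter Topology
open Pool.Agent.Helper58.Qip
open scoped ENNReal NNReal

section step

variable {E : Type*}

lemma cadlag_step [TopologicalSpace E] {a : ℝ≥0} (ha : 0 < a) (y : ℕ → E) :
    Cadlag (fun t : ℝ≥0 => y ⌊a * t⌋₊) := by
  intro t
  constructor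
  · have h1 : ∀ᶠ s in 𝓝[≥] t, a * s < (⌊a * t⌋₊ : ℝ≥0) + 1 := by
      apply mem_nhdsWithin_of_mem_nhds
      have hc : Continuous fun s : ℝ≥0 => a * s := by fun_prop
      exact hc.continuousAt.eventually_lt continuousAt_const (Nat.lt_floor_add_one _)
    have h2 : ∀ᶠ s in 𝓝[≥] t, y ⌊a * t⌋₊ = y ⌊a * s⌋₊ := by
      filter_upwards [h1, self_mem_nhdsWithin] with s hs hts
      have hts' : t ≤ s := hts
      congr 1
      symm
      rw [Nat.floor_eq_iff zero_le]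
      exact ⟨(Nat.floor_le zero_le).trans (by gcongr), hs⟩
    exact (tendsto_const_nhds (x := y ⌊a * t⌋₊)).congr' h2
  · rcases eq_or_ne t 0 with rfl | ht
    · refine ⟨y 0, ?_⟩
      have : Set.Iio (0 : ℝ≥0) = ∅ := by
        ext s
        simp
      rw [this, nhdsWithin_empty]
      exact tendsto_bot
    · have ht' : 0 < t := pos_iff_ne_zero.2 ht
      have hat : 0 < a * t := mul_pos ha ht'
      have hc0 : 0 < ⌈a * t⌉₊ := Nat.ceil_pos.2 hat
      refine ⟨y (⌈a * t⌉₊ - 1), ?_⟩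
      have h1 : ∀ᶠ s in 𝓝[<] t, ((⌈a * t⌉₊ - 1 : ℕ) : ℝ≥0) < a * s := by
        apply mem_nhdsWithin_of_mem_nhds
        have hc : Continuous fun s : ℝ≥0 => a * s := by fun_prop
        refine continuousAt_const.eventually_lt hc.continuousAt ?_
        exact Nat.lt_ceil.1 (by omega)
      have h2 : ∀ᶠ s in 𝓝[<] t, y (⌈a * t⌉₊ - 1) = y ⌊a * s⌋₊ := by
        filter_upwards [h1, self_mem_nhdsWithin] with s hs hts
        have hts' : s < t := hts
        congr 1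
        symm
        rw [Nat.floor_eq_iff zero_le]
        refine ⟨hs.le, ?_⟩
        have h3 : a * s < a * t := by gcongr
        have h4 : a * t ≤ (⌈a * t⌉₊ : ℝ≥0) := Nat.le_ceil _
        have h5 : (⌈a * t⌉₊ : ℝ≥0) = ((⌈a * t⌉₊ - 1 : ℕ) : ℝ≥0) + 1 := by
          rw [← Nat.cast_add_one]
          congr 1
          omega
        rw [← h5]
        exact h3.trans_le h4
      exact (tendsto_const_nhds (x := y (⌈a * t⌉₊ - 1))).congr' h2

/-- the grid function -/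
noncomputable def grid (m : ℕ) (t : ℝ≥0) : ℝ≥0 := (min ⌊(m : ℝ≥0) * t⌋₊ (m ^ 2) : ℕ) / (m : ℝ≥0)

/-- the step function with given values -/
noncomputable def st (m : ℕ) (v : Fin (m ^ 2 + 1) → E) : ℝ≥0 → E := fun t =>
  v ⟨min ⌊(m : ℝ≥0) * t⌋₊ (m ^ 2), by omega⟩

lemma st_grid (m : ℕ) (x : ℝ≥0 → E) :
    st m (fun k : Fin (m ^ 2 + 1) => x (((k : ℕ) : ℝ≥0) / (m : ℝ≥0))) = fun t => x (grid m t) := rfl

lemma cadlag_st [TopologicalSpace E] {m : ℕ} (hm : 0 < m) (v : Fin (m ^ 2 + 1) → E) :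
    Cadlag (st m v) :=
  cadlag_step (a := (m : ℝ≥0)) (by exact_mod_cast hm)
    (fun k => v ⟨min k (m ^ 2), by omega⟩)

lemma grid_le (m : ℕ) (t : ℝ≥0) : grid m t ≤ t := by
  unfold grid
  rcases Nat.eq_zero_or_pos m with rfl | hm
  · simp
  · have hm' : (0 : ℝ≥0) < m := by exact_mod_cast hm
    rw [div_le_iff₀ hm', mul_comm t]
    have h1 : ((min ⌊(m : ℝ≥0) * t⌋₊ (m ^ 2) : ℕ) : ℝ≥0) ≤ (⌊(m : ℝ≥0) * t⌋₊ : ℝ≥0) := by
      exact_mod_cast min_le_left _ _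
    exact h1.trans (Nat.floor_le zero_le)

lemma dist_grid {m : ℕ} (hm : 0 < m) {t : ℝ≥0} (ht : t ≤ m) : dist (grid m t) t ≤ 1 / m := by
  have hm' : (0 : ℝ≥0) < m := by exact_mod_cast hm
  have hle := grid_le m t
  have h1 : t ≤ grid m t + 1 / m := by
    unfold grid
    have h2 : min ⌊(m : ℝ≥0) * t⌋₊ (m ^ 2) = ⌊(m : ℝ≥0) * t⌋₊ := by
      apply min_eq_left
      have h3 : (m : ℝ≥0) * t ≤ ((m ^ 2 : ℕ) : ℝ≥0) := by
        push_cast
        rw [sq]
        gcongr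
      calc ⌊(m : ℝ≥0) * t⌋₊ ≤ ⌊((m ^ 2 : ℕ) : ℝ≥0)⌋₊ := Nat.floor_le_floor h3
        _ = m ^ 2 := Nat.floor_natCast _
    rw [h2, ← add_div, le_div_iff₀ hm', mul_comm t]
    exact (Nat.lt_floor_add_one _).le
  rw [NNReal.dist_eq, abs_sub_comm, abs_of_nonneg (sub_nonneg.2 (by exact_mod_cast hle))]
  have h4 : (t : ℝ) ≤ grid m t + 1 / m := by exact_mod_cast h1
  linarith

end step

section metric

variable {E : Type*} [PseudoMetricSpace E] {F : (ℝ≥0 → E) → ℝ}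

lemma F_tendsto (hF : J1Continuous F) {x : ℕ → ℝ≥0 → E} {y : ℝ≥0 → E} (hx : ∀ n, Cadlag (x n))
    (hy : Cadlag y) (h : ∀ T : ℝ≥0, ∀ ε : ℝ, 0 < ε → ∀ᶠ n in atTop, ∀ t, t ≤ T →
      dist (x n t) (y t) < ε) : Tendsto (fun n => F (x n)) atTop (𝓝 (F y)) :=
  hF x y hx hy ⟨fun _ => OrderIso.refl _, fun T ε hε => (h T ε hε).mono fun n hn t ht =>
    ⟨by simpa using hε, hn t ht⟩⟩

lemma continuous_F_st (hF : J1Continuous F) {m : ℕ} (hm : 0 < m) :
    Continuous fun v : Fin (m ^ 2 + 1) → E => F (st m v) := by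
  rw [continuous_iff_seqContinuous]
  intro v v₀ hv
  refine F_tendsto hF (fun n => cadlag_st hm _) (cadlag_st hm _) fun T ε hε => ?_
  rw [Metric.tendsto_atTop] at hv
  obtain ⟨N, hN⟩ := hv ε hε
  filter_upwards [eventually_ge_atTop N] with n hn t _
  exact (dist_le_pi_dist (v n) v₀ ⟨min ⌊(m : ℝ≥0) * t⌋₊ (m ^ 2), by omega⟩).trans_lt (hN n hn)

lemma cadlag_of_continuous {E : Type*} [TopologicalSpace E] {x : ℝ≥0 → E} (hx : Continuous x) :
    Cadlag x := fun t =>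
  ⟨hx.continuousWithinAt, x t, hx.continuousAt.tendsto.mono_left nhdsWithin_le_nhds⟩

lemma tendsto_F_grid (hF : J1Continuous F) {b : ℝ≥0 → E} (hb : Continuous b) :
    Tendsto (fun m : ℕ => F (fun t => b (grid m t))) atTop (𝓝 (F b)) := by
  have h1 : Tendsto (fun m : ℕ => F (fun t => b (grid (m + 1) t))) atTop (𝓝 (F b)) := by
    refine F_tendsto hF (fun n => cadlag_st (m := n + 1) (Nat.succ_pos _)
      (fun k => b (((k : ℕ) : ℝ≥0) / ((n + 1 : ℕ) : ℝ≥0)))) (cadlag_of_continuous hb)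
      fun T ε hε => ?_
    have hu : UniformContinuousOn b (Set.Icc 0 T) :=
      isCompact_Icc.uniformContinuousOn_of_continuous hb.continuousOn
    rw [Metric.uniformContinuousOn_iff] at hu
    obtain ⟨δ, hδ, hδ'⟩ := hu ε hε
    obtain ⟨N, hN⟩ := exists_nat_gt (1 / δ)
    filter_upwards [eventually_ge_atTop N, eventually_ge_atTop ⌈T⌉₊] with n hn hnT t ht
    have hTn : T ≤ ((n + 1 : ℕ) : ℝ≥0) := by
      have h2 : T ≤ (⌈T⌉₊ : ℝ≥0) := Nat.le_ceil _
      have h3 : (⌈T⌉₊ : ℝ≥0) ≤ ((n + 1 : ℕ) : ℝ≥0) := by exact_mod_cast (by omega)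
      exact h2.trans h3
    refine hδ' _ ⟨zero_le, (grid_le _ _).trans ht⟩ _ ⟨zero_le, ht⟩ ?_
    refine (dist_grid (Nat.succ_pos n) (ht.trans hTn)).trans_lt ?_
    rw [div_lt_iff₀ (by positivity)]
    rw [div_lt_iff₀ hδ] at hN
    have h4 : (N : ℝ) ≤ ((n + 1 : ℕ) : ℝ) := by exact_mod_cast (by omega)
    calc (1 : ℝ) < N * δ := hN
      _ ≤ ((n + 1 : ℕ) : ℝ) * δ := by gcongr
      _ = δ * ((n + 1 : ℕ) : ℝ) := mul_comm _ _
  exact (tendsto_add_atTop_iff_nat 1).1 h1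

end metric

end Pool.Agent.Helper18.Qip
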