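import Pool.Agent.Helper18.Qip.I2

set_option autoImplicit false

/-!
Packet I, third part: compactness.
-/

namespace Pool.Agent.Helper18.Qip

open MeasureTheory ProbabilityTheory Filter Topology
open Pool.Agent.Helper58.Qip
open scoped ENNReal NNReal

section

variable {E : Type*} [NormedAddCommGroup E] [ProperSpace E]

omit [ProperSpace E] in
/-- Steps of a path with controlled modulus. -/
lemma norm_le_of_modulus {y : ℝ≥0 → E} {i : ℕ} {δ : ℝ} {c : ℝ} (h0 : y 0 = 0)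
    (h : ∀ s t : ℝ≥0, s ≤ i → t ≤ i → dist s t ≤ δ → dist (y s) (y t) ≤ c)
    {t : ℝ≥0} (ht : t ≤ i) {N : ℕ} (hN : (t : ℝ) ≤ N * δ) (hN0 : 0 < N) : ‖y t‖ ≤ N * c := by
  have hN' : (0 : ℝ≥0) < N := by exact_mod_cast hN0
  have h1 : dist (y (t * (0 : ℕ) / N)) (y (t * N / N)) ≤
      ∑ k ∈ Finset.range N, dist (y (t * k / N)) (y (t * (k + 1 : ℕ) / N)) :=
    dist_le_range_sum_dist (fun k : ℕ => y (t * k / N)) N
  have h2 : ∀ k ∈ Finset.range N, dist (y (t * k / N)) (y (t * (k + 1 : ℕ) / N)) ≤ c := by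
    intro k hk
    have hk' : k + 1 ≤ N := Finset.mem_range.1 hk
    have hle : ∀ j : ℕ, j ≤ N → t * j / N ≤ (i : ℝ≥0) := by
      intro j hj
      rw [div_le_iff₀ hN']
      have : (j : ℝ≥0) ≤ N := by exact_mod_cast hj
      gcongr
    refine h _ _ (hle _ (by omega)) (hle _ hk') ?_
    rw [NNReal.dist_eq]
    push_cast
    have e : (t : ℝ) * k / N - t * (k + 1) / N = -(t / N) := by
      have : (N : ℝ) ≠ 0 := by positivity
      field_simp
      ring
    rw [e, abs_neg, abs_of_nonneg (by positivity), div_le_iff₀ (by positivity)]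
    linarith
  have h3 : y (t * N / N) = y t := by
    congr 1
    field_simp
  rw [h3] at h1
  simp only [Nat.cast_zero, mul_zero, zero_div, h0, dist_zero_left] at h1
  refine h1.trans ((Finset.sum_le_sum h2).trans ?_)
  simp

/-- A compactness lemma of Arzela-Ascoli type. -/
lemma exists_subseq (y : ℕ → ℝ≥0 → E) (h0 : ∀ j, y j 0 = 0) (δ : ℕ → ℝ) (hδ : ∀ i, 0 < δ i)
    (h : ∀ i : ℕ, ∀ᶠ j in atTop, ∀ s t : ℝ≥0, s ≤ i → t ≤ i → dist s t ≤ δ i →
      dist (y j s) (y j t) ≤ 1 / ((i : ℝ) + 1)) :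
    ∃ φ : ℕ → ℕ, StrictMono φ ∧ ∃ z : ℝ≥0 → E,
      (∀ (i : ℕ) (s t : ℝ≥0), s ≤ i → t ≤ i → dist s t ≤ δ i →
        dist (z s) (z t) ≤ 1 / ((i : ℝ) + 1)) ∧
      ∀ (T : ℝ≥0) (ε : ℝ), 0 < ε → ∀ᶠ k in atTop, ∀ t, t ≤ T → dist (y (φ k) t) (z t) < ε := by
  classical
  set pt : ℕ × ℕ → ℝ≥0 := fun p => (p.1 : ℝ≥0) / ((p.2 : ℝ≥0) + 1) with hpt
  -- bounds
  have hbd : ∀ t : ℝ≥0, ∃ R : ℝ, ∀ j, ‖y j t‖ ≤ R := by
    intro t
    obtain ⟨N, hN⟩ := exists_nat_gt ((t : ℝ) / δ ⌈t⌉₊)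
    have hN1 : (t : ℝ) ≤ (N + 1 : ℕ) * δ ⌈t⌉₊ := by
      rw [div_lt_iff₀ (hδ _)] at hN
      push_cast
      have := hδ ⌈t⌉₊
      nlinarith
    have h1 : ∀ᶠ j in atTop, ‖y j t‖ ≤ (N + 1 : ℕ) * (1 / ((⌈t⌉₊ : ℝ) + 1)) := by
      filter_upwards [h ⌈t⌉₊] with j hj
      exact norm_le_of_modulus (h0 j) hj (Nat.le_ceil t) hN1 (Nat.succ_pos _)
    have h2 : IsBoundedUnder (· ≤ ·) atTop fun j => ‖y j t‖ := ⟨_, h1⟩
    obtain ⟨R, hR⟩ := h2.bddAbove_range
    exact ⟨R, fun j => hR ⟨j, rfl⟩⟩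
  choose R hR using hbd
  have hK : IsCompact (Set.pi Set.univ fun p : ℕ × ℕ => Metric.closedBall (0 : E) (R (pt p))) :=
    isCompact_univ_pi fun p => isCompact_closedBall _ _
  obtain ⟨a, -, φ, hφ, ha⟩ := hK.tendsto_subseq (x := fun j p => y j (pt p))
    (fun j p _ => by simpa using hR (pt p) j)
  rw [tendsto_pi_nhds] at ha
  -- uniformly Cauchy
  have hC : ∀ (T : ℝ≥0) (ε : ℝ), 0 < ε → ∃ N : ℕ, ∀ k, N ≤ k → ∀ l, N ≤ l → ∀ t, t ≤ T →
      dist (y (φ k) t) (y (φ l) t) < ε := by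
    intro T ε hε
    obtain ⟨i₀, hi₀⟩ := exists_nat_gt (4 / ε)
    set i : ℕ := max i₀ ⌈T⌉₊ with hi
    have hi1 : 1 / ((i : ℝ) + 1) < ε / 4 := by
      have h1 : (i₀ : ℝ) ≤ i := by exact_mod_cast le_max_left _ _
      rw [div_lt_iff₀ (by positivity)]
      rw [div_lt_iff₀ hε] at hi₀
      nlinarith
    have hTi : T ≤ (i : ℝ≥0) := (Nat.le_ceil T).trans (by exact_mod_cast le_max_right _ _)
    obtain ⟨q, hq⟩ := exists_nat_gt (1 / δ i)
    have hq1 : 1 / ((q : ℝ) + 1) ≤ δ i := by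
      rw [div_le_iff₀ (by positivity)]
      rw [div_lt_iff₀ (hδ i)] at hq
      have := hδ i
      nlinarith
    set P : ℕ := ⌊T * ((q : ℝ≥0) + 1)⌋₊ with hP
    have hev : ∀ᶠ k in atTop, ∀ p ∈ Finset.range (P + 1),
        dist (y (φ k) (pt (p, q))) (a (p, q)) < ε / 4 := by
      rw [eventually_all_finset]
      intro p _
      exact (Metric.tendsto_nhds.1 (ha (p, q))) (ε / 4) (by positivity)
    have hmod := hφ.tendsto_atTop.eventually (h i)
    obtain ⟨N, hN⟩ := eventually_atTop.1 (hev.and hmod)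
    refine ⟨N, fun k hk l hl t ht => ?_⟩
    obtain ⟨hk1, hk2⟩ := hN k hk
    obtain ⟨hl1, hl2⟩ := hN l hl
    set p : ℕ := ⌊t * ((q : ℝ≥0) + 1)⌋₊ with hp
    have hpP : p ∈ Finset.range (P + 1) := by
      rw [Finset.mem_range]
      have : p ≤ P := Nat.floor_le_floor (by gcongr)
      omega
    have hq0 : (0 : ℝ≥0) < (q : ℝ≥0) + 1 := by positivity
    have hpt_le : pt (p, q) ≤ t := by
      simp only [hpt]
      rw [div_le_iff₀ hq0]
      exact Nat.floor_le zero_le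
    have hlt : t ≤ pt (p, q) + 1 / ((q : ℝ≥0) + 1) := by
      simp only [hpt]
      rw [← add_div, le_div_iff₀ hq0]
      exact (Nat.lt_floor_add_one _).le
    have hdist : dist (pt (p, q)) t ≤ δ i := by
      rw [NNReal.dist_eq, abs_sub_comm, abs_of_nonneg (sub_nonneg.2 (by exact_mod_cast hpt_le))]
      have h4 : (t : ℝ) ≤ pt (p, q) + 1 / ((q : ℝ) + 1) := by exact_mod_cast hlt
      linarith
    have hti : t ≤ (i : ℝ≥0) := ht.trans hTi
    have e1 := hk2 _ _ (hpt_le.trans hti) hti hdist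
    have e2 := hl2 _ _ (hpt_le.trans hti) hti hdist
    have e3 := hk1 p hpP
    have e4 := hl1 p hpP
    calc dist (y (φ k) t) (y (φ l) t)
        ≤ dist (y (φ k) t) (y (φ k) (pt (p, q))) + dist (y (φ k) (pt (p, q))) (a (p, q)) +
          dist (a (p, q)) (y (φ l) (pt (p, q))) + dist (y (φ l) (pt (p, q))) (y (φ l) t) := by
          have t1 := dist_triangle (y (φ k) t) (y (φ k) (pt (p, q))) (y (φ l) t)
          have t2 := dist_triangle (y (φ k) (pt (p, q))) (a (p, q)) (y (φ l) t)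
          have t3 := dist_triangle (a (p, q)) (y (φ l) (pt (p, q))) (y (φ l) t)
          linarith
      _ < ε := by
          rw [dist_comm (y (φ k) t), dist_comm (a (p, q))]
          linarith
  -- limit
  have hlim : ∀ t : ℝ≥0, ∃ z : E, Tendsto (fun k => y (φ k) t) atTop (𝓝 z) := by
    intro t
    apply cauchySeq_tendsto_of_complete
    rw [Metric.cauchySeq_iff]
    intro ε hε
    obtain ⟨N, hN⟩ := hC t ε hε
    exact ⟨N, fun k hk l hl => hN k hk l hl t le_rfl⟩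
  choose z hz using hlim
  refine ⟨φ, hφ, z, ?_, ?_⟩
  · intro i s t hs ht hst
    refine le_of_tendsto ((hz s).dist (hz t)) ?_
    filter_upwards [hφ.tendsto_atTop.eventually (h i)] with k hk
    exact hk s t hs ht hst
  · intro T ε hε
    obtain ⟨N, hN⟩ := hC T (ε / 2) (by positivity)
    filter_upwards [eventually_ge_atTop N] with k hk t ht
    have h1 : dist (y (φ k) t) (z t) ≤ ε / 2 := by
      refine le_of_tendsto (tendsto_const_nhds.dist (hz t)) ?_
      filter_upwards [eventually_ge_atTop N] with l hl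
      exact (hN k hk l hl t ht).le
    linarith

/-- The uniform approximation by discretised paths. -/
lemma claim {S : Type*} {F : (ℝ≥0 → E) → ℝ} (hF : J1Continuous F) (Y : ℕ → S → ℝ≥0 → E)
    (K : ℕ → Set S) (h0 : ∀ n u, Y n u 0 = 0) (hcad : ∀ n u, Cadlag (Y n u)) (δ : ℕ → ℝ)
    (hδ : ∀ i, 0 < δ i) (N : ℕ → ℕ)
    (h : ∀ i n : ℕ, N i ≤ n → ∀ u ∈ K n, ∀ s t : ℝ≥0, s ≤ i → t ≤ i → dist s t ≤ δ i →
      dist (Y n u s) (Y n u t) ≤ 1 / ((i : ℝ) + 1)) (ε : ℝ) (hε : 0 < ε) :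
    ∃ m₀ : ℕ, ∀ m, m₀ ≤ m → ∃ n₀ : ℕ, ∀ n, n₀ ≤ n → ∀ u ∈ K n,
      |F (Y n u) - F (fun t => Y n u (grid m t))| ≤ ε := by
  by_contra hcon
  push Not at hcon
  have hex : ∀ j : ℕ, ∃ m : ℕ, j + 1 ≤ m ∧ ∃ n, j ≤ n ∧ ∃ u, u ∈ K n ∧
      ε < |F (Y n u) - F (fun t => Y n u (grid m t))| := by
    intro j
    obtain ⟨m, hm, hm'⟩ := hcon (j + 1)
    obtain ⟨n, hn, u, hu, hu'⟩ := hm' j
    exact ⟨m, hm, n, hn, u, hu, hu'⟩
  choose m hm n hn u hu hbad using hex
  obtain ⟨φ, hφ, z, hz, hyz⟩ := exists_subseq (fun j => Y (n j) (u j)) (fun j => h0 _ _) δ hδ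
    (fun i => by
      filter_upwards [eventually_ge_atTop (N i)] with j hj
      exact h i (n j) (hj.trans (hn j)) (u j) (hu j))
  have hzc : Continuous z := by
    rw [Metric.continuous_iff]
    intro t ε' hε'
    obtain ⟨i₀, hi₀⟩ := exists_nat_gt (1 / ε')
    set i : ℕ := max i₀ ⌈t + 1⌉₊ with hi
    have hi1 : 1 / ((i : ℝ) + 1) < ε' := by
      have h1 : (i₀ : ℝ) ≤ i := by exact_mod_cast le_max_left _ _
      rw [div_lt_iff₀ (by positivity)]
      rw [div_lt_iff₀ hε'] at hi₀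
      nlinarith
    have hti : t + 1 ≤ (i : ℝ≥0) := (Nat.le_ceil _).trans (by exact_mod_cast le_max_right _ _)
    refine ⟨min (δ i) 1, lt_min (hδ i) one_pos, fun s hs => ?_⟩
    have hs1 : dist s t < δ i := hs.trans_le (min_le_left _ _)
    have hs2 : dist s t < 1 := hs.trans_le (min_le_right _ _)
    have hs3 : s ≤ t + 1 := by
      rw [NNReal.dist_eq] at hs2
      have := (abs_lt.1 hs2).2
      rw [← NNReal.coe_le_coe]
      push_cast
      linarith
    have ht1 : t ≤ t + 1 := le_self_add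
    exact (hz i s t (hs3.trans hti) (ht1.trans hti) hs1.le).trans_lt hi1
  have hL1 : Tendsto (fun k => F (Y (n (φ k)) (u (φ k)))) atTop (𝓝 (F z)) :=
    F_tendsto hF (fun k => hcad _ _) (cadlag_of_continuous hzc) hyz
  have hL2 : Tendsto (fun k => F (fun t => Y (n (φ k)) (u (φ k)) (grid (m (φ k)) t))) atTop
      (𝓝 (F z)) := by
    refine F_tendsto hF (fun k => cadlag_st (m := m (φ k)) (by have := hm (φ k); omega)
      (fun j => Y (n (φ k)) (u (φ k)) (((j : ℕ) : ℝ≥0) / (m (φ k) : ℝ≥0))))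
      (cadlag_of_continuous hzc) fun T ε' hε' => ?_
    obtain ⟨i₀, hi₀⟩ := exists_nat_gt (2 / ε')
    set i : ℕ := max i₀ ⌈T⌉₊ with hi
    have hi1 : 1 / ((i : ℝ) + 1) < ε' / 2 := by
      have h1 : (i₀ : ℝ) ≤ i := by exact_mod_cast le_max_left _ _
      rw [div_lt_iff₀ (by positivity)]
      rw [div_lt_iff₀ hε'] at hi₀
      nlinarith
    have hTi : T ≤ (i : ℝ≥0) := (Nat.le_ceil _).trans (by exact_mod_cast le_max_right _ _)
    obtain ⟨q, hq⟩ := exists_nat_gt (1 / δ i)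
    filter_upwards [hyz T (ε' / 2) (by positivity), eventually_ge_atTop q,
      eventually_ge_atTop ⌈T⌉₊] with k hk hkq hkT t ht
    have hmk : k + 1 ≤ m (φ k) := by
      have h1 := hφ.id_le k
      have h2 := hm (φ k)
      simp only [id] at h1
      omega
    have hTm : T ≤ (m (φ k) : ℝ≥0) :=
      (Nat.le_ceil _).trans (by exact_mod_cast (by omega : ⌈T⌉₊ ≤ m (φ k)))
    have hd : dist (grid (m (φ k)) t) t ≤ δ i := by
      refine (dist_grid (by omega) (ht.trans hTm)).trans ?_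
      have h1 : (q : ℝ) ≤ (m (φ k) : ℝ) := by exact_mod_cast (by omega)
      have h2 : (0 : ℝ) < (m (φ k) : ℝ) := by exact_mod_cast (by omega)
      rw [div_le_iff₀ h2]
      rw [div_lt_iff₀ (hδ i)] at hq
      have := hδ i
      nlinarith
    have hgt : grid (m (φ k)) t ≤ t := grid_le _ _
    have e1 := hk (grid (m (φ k)) t) (hgt.trans ht)
    have e2 := hz i (grid (m (φ k)) t) t ((hgt.trans ht).trans hTi) (ht.trans hTi) hd
    have e3 := dist_triangle (Y (n (φ k)) (u (φ k)) (grid (m (φ k)) t)) (z (grid (m (φ k)) t)) (z t)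
    have e4 : dist (Y (n (φ k)) (u (φ k)) (grid (m (φ k)) t)) (z t) < ε' := by linarith
    exact e4
  have hL3 : Tendsto (fun k => |F (Y (n (φ k)) (u (φ k))) -
      F (fun t => Y (n (φ k)) (u (φ k)) (grid (m (φ k)) t))|) atTop (𝓝 0) := by
    have := (hL1.sub hL2).abs
    simpa using this
  have h4 : ε ≤ 0 := ge_of_tendsto' hL3 fun k => (hbad (φ k)).le
  linarith

end

end Pool.Agent.Helper18.Qip
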