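import Pool.Agent.Helper18.Qip.I3

set_option autoImplicit false

/-!
Packet I: convergence of the expectations of J1-continuous functionals.
-/

namespace Pool.Agent.Helper18.Qip

open MeasureTheory ProbabilityTheory Filter Topology
open Pool.Agent.Helper58.Qip
open scoped ENNReal NNReal

section

variable {d : ℕ} {D : Matrix (Fin d) (Fin d) ℝ}

lemma ofReal_exponent (r : ℕ) (t : Fin r → ℝ≥0) (θ : Fin r → EuclideanSpace ℝ (Fin d)) :
    Complex.exp (-(1 / 2) *
        ∑ j, ∑ k, ((min (t j) (t k) : ℝ≥0) : ℝ) * ∑ a, ∑ b, θ j a * D a b * θ k b) =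
      Complex.exp (((-(1 / 2) * ∑ j, ∑ k, ((min (t j) (t k) : ℝ≥0) : ℝ) *
        qf D (θ j) (θ k) : ℝ)) : ℂ) := by
  congr 1
  simp only [qf]
  push_cast
  rfl

variable {W : Type} [MeasurableSpace W] {B : ℝ≥0 → W → EuclideanSpace ℝ (Fin d)} {ν : Measure W}

lemma bm_charFun_fin (hD : D.PosSemidef) (hB : IsBM D B ν) (t : ℕ → ℝ≥0) (ht : Monotone t)
    (ht0 : t 0 = 0) (r : ℕ) (θ : Fin r → EuclideanSpace ℝ (Fin d)) :
    ∫ w, Complex.exp (Complex.I *
        ((∑ j : Fin r, (inner ℝ (θ j) (B (t j) w) : ℝ) : ℝ) : ℂ)) ∂ν =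
      Complex.exp (((-(1 / 2) * ∑ j : Fin r, ∑ l : Fin r,
        ((min (t j) (t l) : ℝ≥0) : ℝ) * qf D (θ j) (θ l) : ℝ)) : ℂ) := by
  have h := bm_charFun hD hB t ht ht0 r (fun j => if h : j < r then θ ⟨j, h⟩ else 0)
  simp only [Finset.sum_range, Fin.is_lt, dite_true, Fin.eta] at h
  exact h

/-- The vector of the values at the grid points. -/
noncomputable def vec (m : ℕ) (x : ℝ≥0 → EuclideanSpace ℝ (Fin d)) :
    PiLp 2 (fun _ : Fin (m ^ 2 + 1) => EuclideanSpace ℝ (Fin d)) :=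
  WithLp.toLp 2 fun k => x (((k : ℕ) : ℝ≥0) / (m : ℝ≥0))

/-- The functional as a function of the vector of values. -/
noncomputable def Gf (F : (ℝ≥0 → EuclideanSpace ℝ (Fin d)) → ℝ) (m : ℕ)
    (v : PiLp 2 (fun _ : Fin (m ^ 2 + 1) => EuclideanSpace ℝ (Fin d))) : ℝ :=
  F (st m v.ofLp)

lemma continuous_Gf {F : (ℝ≥0 → EuclideanSpace ℝ (Fin d)) → ℝ} (hF : J1Continuous F) {m : ℕ}
    (hm : 0 < m) : Continuous (Gf F m) :=
  (continuous_F_st hF hm).comp (PiLp.continuous_ofLp 2 _)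

lemma Gf_vec (F : (ℝ≥0 → EuclideanSpace ℝ (Fin d)) → ℝ) (m : ℕ)
    (x : ℝ≥0 → EuclideanSpace ℝ (Fin d)) : Gf F m (vec m x) = F (fun t => x (grid m t)) := rfl

lemma mono_div (m : ℕ) : Monotone fun k : ℕ => (k : ℝ≥0) / (m : ℝ≥0) := by
  intro a b hab
  have : (a : ℝ≥0) ≤ b := by exact_mod_cast hab
  simp only
  gcongr

lemma inner_vec (m : ℕ) (x : ℝ≥0 → EuclideanSpace ℝ (Fin d))
    (θ : PiLp 2 (fun _ : Fin (m ^ 2 + 1) => EuclideanSpace ℝ (Fin d))) :
    (inner ℝ (vec m x) θ : ℝ) = ∑ k, (inner ℝ (θ k) (x (((k : ℕ) : ℝ≥0) / (m : ℝ≥0))) : ℝ) := by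
  rw [PiLp.inner_apply]
  refine Finset.sum_congr rfl fun k _ => ?_
  rw [real_inner_comm]
  rfl

lemma step1 (hD : D.PosSemidef) (hB : IsBM D B ν) {S : Type} [MeasurableSpace S] (μ : Measure S)
    [IsProbabilityMeasure μ] (Y : ℕ → S → ℝ≥0 → EuclideanSpace ℝ (Fin d))
    (hY : ∀ n t, Measurable fun u => Y n u t)
    (hfdd : ∀ (r : ℕ) (t : Fin r → ℝ≥0) (θ : Fin r → EuclideanSpace ℝ (Fin d)),
      Tendsto (fun n => ∫ u, Complex.exp (Complex.I * ∑ j, (inner ℝ (θ j) (Y n u (t j)) : ℝ)) ∂μ)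
        atTop (𝓝 (Complex.exp (-(1 / 2) *
          ∑ j, ∑ k, ((min (t j) (t k) : ℝ≥0) : ℝ) * ∑ a, ∑ b, θ j a * D a b * θ k b))))
    {F : (ℝ≥0 → EuclideanSpace ℝ (Fin d)) → ℝ} {C : ℝ} (hC : ∀ x, |F x| ≤ C)
    (hF : J1Continuous F) {m : ℕ} (hm : 0 < m) :
    Tendsto (fun n => ∫ u, F (fun t => Y n u (grid m t)) ∂μ) atTop
      (𝓝 (∫ w, F (fun t => B (grid m t) w) ∂ν)) := by
  have := isProb hB
  have hmY : ∀ n, Measurable fun u => vec m (Y n u) := fun n =>
    (WithLp.measurable_toLp 2 _).comp (measurable_pi_lambda _ fun k => hY n _)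
  have hmB : AEMeasurable (fun w => vec m (fun t => B t w)) ν :=
    (WithLp.measurable_toLp 2 _).comp_aemeasurable (aemeasurable_pi_lambda _ fun k => aemeas hB _)
  have hp : ∀ n, IsProbabilityMeasure (μ.map fun u => vec m (Y n u)) := fun n =>
    Measure.isProbabilityMeasure_map (hmY n).aemeasurable
  have hp' : IsProbabilityMeasure (ν.map fun w => vec m (fun t => B t w)) :=
    Measure.isProbabilityMeasure_map hmB
  set P1 : ℕ → ProbabilityMeasure
      (PiLp 2 (fun _ : Fin (m ^ 2 + 1) => EuclideanSpace ℝ (Fin d))) := fun n =>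
    ⟨μ.map fun u => vec m (Y n u), hp n⟩ with hP1
  set P2 : ProbabilityMeasure
      (PiLp 2 (fun _ : Fin (m ^ 2 + 1) => EuclideanSpace ℝ (Fin d))) :=
    ⟨ν.map fun w => vec m (fun t => B t w), hp'⟩ with hP2
  have hconv : Tendsto P1 atTop (𝓝 P2) := by
    apply ProbabilityMeasure.tendsto_of_tendsto_charFun
    intro θ
    have h1 := hfdd (m ^ 2 + 1) (fun k => ((k : ℕ) : ℝ≥0) / (m : ℝ≥0)) (fun k => θ k)
    rw [ofReal_exponent, ← bm_charFun_fin hD hB (fun k : ℕ => (k : ℝ≥0) / (m : ℝ≥0)) (mono_div m)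
      (by simp) (m ^ 2 + 1) (fun k => θ k)] at h1
    have e1 : ∀ n, charFun (μ.map fun u => vec m (Y n u)) θ =
        ∫ u, Complex.exp (Complex.I * ((∑ j : Fin (m ^ 2 + 1),
          (inner ℝ (θ j) (Y n u (((j : ℕ) : ℝ≥0) / (m : ℝ≥0))) : ℝ) : ℝ) : ℂ)) ∂μ := by
      intro n
      rw [charFun_apply, integral_map (hmY n).aemeasurable (by fun_prop)]
      refine integral_congr_ae (Filter.Eventually.of_forall fun u => ?_)
      simp only
      rw [inner_vec, mul_comm]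
    have e2 : charFun (ν.map fun w => vec m (fun t => B t w)) θ =
        ∫ w, Complex.exp (Complex.I * ((∑ j : Fin (m ^ 2 + 1),
          (inner ℝ (θ j) (B (((j : ℕ) : ℝ≥0) / (m : ℝ≥0)) w) : ℝ) : ℝ) : ℂ)) ∂ν := by
      rw [charFun_apply, integral_map hmB (by fun_prop)]
      refine integral_congr_ae (Filter.Eventually.of_forall fun w => ?_)
      simp only
      rw [inner_vec, mul_comm]
    change Tendsto (fun n => charFun (μ.map fun u => vec m (Y n u)) θ) atTop
      (𝓝 (charFun (ν.map fun w => vec m (fun t => B t w)) θ))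
    rw [e2]
    simp_rw [e1]
    exact h1
  rw [ProbabilityMeasure.tendsto_iff_forall_integral_tendsto] at hconv
  have h2 := hconv (BoundedContinuousFunction.ofNormedAddCommGroup (Gf F m)
    (continuous_Gf hF hm) C (fun v => hC _))
  have h2 : Tendsto (fun n => ∫ v, Gf F m v ∂(μ.map fun u => vec m (Y n u))) atTop
      (𝓝 (∫ v, Gf F m v ∂(ν.map fun w => vec m (fun t => B t w)))) := h2
  have e3 : ∀ n, ∫ v, Gf F m v ∂(μ.map fun u => vec m (Y n u)) =
      ∫ u, F (fun t => Y n u (grid m t)) ∂μ := fun n =>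
    integral_map (hmY n).aemeasurable (continuous_Gf hF hm).aestronglyMeasurable
  have e4 : ∫ v, Gf F m v ∂(ν.map fun w => vec m (fun t => B t w)) =
      ∫ w, F (fun t => B (grid m t) w) ∂ν :=
    integral_map hmB (continuous_Gf hF hm).aestronglyMeasurable
  rw [e4] at h2
  simp_rw [e3] at h2
  exact h2

lemma step2 (hB : IsBM D B ν)
    {F : (ℝ≥0 → EuclideanSpace ℝ (Fin d)) → ℝ} {C : ℝ} (hC : ∀ x, |F x| ≤ C)
    (hF : J1Continuous F) :
    Tendsto (fun m : ℕ => ∫ w, F (fun t => B (grid (m + 1) t) w) ∂ν) atTop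
      (𝓝 (∫ w, F (fun t => B t w) ∂ν)) := by
  have := isProb hB
  refine tendsto_integral_of_dominated_convergence (fun _ => C) ?_ (integrable_const C) ?_ ?_
  · intro m
    have hmB : AEMeasurable (fun w => vec (m + 1) (fun t => B t w)) ν :=
      (WithLp.measurable_toLp 2 _).comp_aemeasurable
        (aemeasurable_pi_lambda _ fun k => aemeas hB _)
    exact (continuous_Gf hF (Nat.succ_pos m)).comp_aestronglyMeasurable hmB.aestronglyMeasurable
  · exact fun m => Filter.Eventually.of_forall fun w => by simpa using hC _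
  · filter_upwards [hB.cont] with w hw
    exact (tendsto_add_atTop_iff_nat 1).2 (tendsto_F_grid hF hw)

lemma step3 {S : Type} [MeasurableSpace S] (μ : Measure S)
    [IsProbabilityMeasure μ] (Y : ℕ → S → ℝ≥0 → EuclideanSpace ℝ (Fin d))
    (hY : ∀ n t, Measurable fun u => Y n u t) (h0 : ∀ n u, Y n u 0 = 0)
    (hcad : ∀ n u, Cadlag (Y n u))
    {F : (ℝ≥0 → EuclideanSpace ℝ (Fin d)) → ℝ} {C : ℝ} (hC : ∀ x, |F x| ≤ C)
    (hF : J1Continuous F) (hFm : ∀ n, AEStronglyMeasurable (fun u => F (Y n u)) μ)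
    (htight : ∀ (T : ℝ≥0) (ε η : ℝ), 0 < ε → 0 < η → ∃ δ : ℝ, 0 < δ ∧ ∀ᶠ n in atTop,
      μ {u | ∃ s t : ℝ≥0, s ≤ T ∧ t ≤ T ∧ dist s t ≤ δ ∧ ε < dist (Y n u s) (Y n u t)}
        ≤ ENNReal.ofReal η) (ε : ℝ) (hε : 0 < ε) :
    ∃ m₀ : ℕ, ∀ m, m₀ ≤ m → 0 < m → ∀ᶠ n in atTop,
      |∫ u, F (Y n u) ∂μ - ∫ u, F (fun t => Y n u (grid m t)) ∂μ| ≤ ε := by
  have hC0 : 0 ≤ C := (abs_nonneg _).trans (hC 0)
  set η : ℝ := ε / (4 * (C + 1)) with hη
  have hη0 : 0 < η := by positivity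
  choose δ hδ hδ' using fun i : ℕ => htight (i : ℝ≥0) (1 / ((i : ℝ) + 1)) (η / 2 / 2 ^ i)
    (by positivity) (by positivity)
  choose N hN using fun i : ℕ => eventually_atTop.1 (hδ' i)
  set bad : ℕ → ℕ → Set S := fun i n => {u | ∃ s t : ℝ≥0, s ≤ (i : ℝ≥0) ∧ t ≤ (i : ℝ≥0) ∧
    dist s t ≤ δ i ∧ 1 / ((i : ℝ) + 1) < dist (Y n u s) (Y n u t)} with hbad
  set Bad : ℕ → Set S := fun n => ⋃ i, {u | N i ≤ n ∧ u ∈ bad i n} with hBad
  have hBadμ : ∀ n, μ (Bad n) ≤ ENNReal.ofReal η := by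
    intro n
    refine (measure_iUnion_le _).trans ?_
    have h1 : ∀ i, μ {u | N i ≤ n ∧ u ∈ bad i n} ≤ ENNReal.ofReal (η / 2 / 2 ^ i) := by
      intro i
      by_cases hi : N i ≤ n
      · refine (measure_mono ?_).trans (hN i n hi)
        exact fun u hu => hu.2
      · have : {u | N i ≤ n ∧ u ∈ bad i n} = ∅ := by
          ext u
          simp [hi]
        rw [this, measure_empty]
        exact zero_le
    refine (ENNReal.tsum_le_tsum h1).trans ?_
    rw [← ENNReal.ofReal_tsum_of_nonneg (fun i => by positivity) (summable_geometric_two' η),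
      tsum_geometric_two']
  obtain ⟨m₀, hm₀⟩ := claim hF Y (fun n => (Bad n)ᶜ) h0 hcad δ hδ N (by
    intro i n hin u hu s t hs ht hst
    by_contra hc
    push Not at hc
    exact hu (Set.mem_iUnion.2 ⟨i, hin, s, t, hs, ht, hst, hc⟩)) (ε / 2) (by positivity)
  refine ⟨m₀, fun m hm hm0 => ?_⟩
  obtain ⟨n₀, hn₀⟩ := hm₀ m hm
  filter_upwards [eventually_ge_atTop n₀] with n hn
  have hmY : Measurable fun u => vec m (Y n u) :=
    (WithLp.measurable_toLp 2 _).comp (measurable_pi_lambda _ fun k => hY n _)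
  have hgm : AEStronglyMeasurable (fun u => F (fun t => Y n u (grid m t))) μ :=
    (continuous_Gf hF hm0).comp_aestronglyMeasurable hmY.aestronglyMeasurable
  have hf : Integrable (fun u => F (Y n u)) μ :=
    Integrable.of_bound (hFm n) C (Filter.Eventually.of_forall fun u => hC _)
  have hg : Integrable (fun u => F (fun t => Y n u (grid m t))) μ :=
    Integrable.of_bound hgm C (Filter.Eventually.of_forall fun u => hC _)
  set M := toMeasurable μ (Bad n) with hM
  have hMm : MeasurableSet M := measurableSet_toMeasurable μ (Bad n)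
  have hMμ : μ.real M ≤ η := by
    rw [Measure.real, hM, measure_toMeasurable]
    exact ENNReal.toReal_le_of_le_ofReal hη0.le (hBadμ n)
  rw [← integral_sub hf hg]
  have hbound : ∀ u, |F (Y n u) - F (fun t => Y n u (grid m t))| ≤
      ε / 2 + M.indicator (fun _ => 2 * C) u := by
    intro u
    by_cases hu : u ∈ M
    · rw [Set.indicator_of_mem hu]
      have h1 := abs_sub (F (Y n u)) (F (fun t => Y n u (grid m t)))
      have h2 := hC (Y n u)
      have h3 := hC (fun t => Y n u (grid m t))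
      linarith
    · rw [Set.indicator_of_notMem hu, add_zero]
      exact hn₀ n hn u fun hu' => hu (subset_toMeasurable μ _ hu')
  have hint : Integrable (fun u => ε / 2 + M.indicator (fun _ => 2 * C) u) μ :=
    (integrable_const _).add ((integrable_const _).indicator hMm)
  calc |∫ u, (F (Y n u) - F (fun t => Y n u (grid m t))) ∂μ|
      ≤ ∫ u, |F (Y n u) - F (fun t => Y n u (grid m t))| ∂μ := abs_integral_le_integral_abs
    _ ≤ ∫ u, (ε / 2 + M.indicator (fun _ => 2 * C) u) ∂μ :=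
        integral_mono (hf.sub hg).abs hint hbound
    _ = ε / 2 + 2 * C * μ.real M := by
        rw [integral_add (integrable_const _) ((integrable_const _).indicator hMm),
          integral_const, integral_indicator_const _ hMm]
        simp [mul_comm]
    _ ≤ ε / 2 + 2 * C * η := by gcongr
    _ ≤ ε := by
        have : 2 * C * η ≤ ε / 2 := by
          rw [hη, mul_div_assoc', div_le_iff₀ (by positivity)]
          nlinarith
        linarith

end

/-- Packet I. -/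
theorem stmtI : StmtI := by
  intro d D hD S _ μ _ Y hY h0 hstep hFm hfdd htight
  refine ⟨hfdd, htight, ?_⟩
  rintro F ⟨C, hC⟩ hF W _ ν B hB
  have hcad : ∀ n u, Cadlag (Y n u) := by
    intro n u
    obtain ⟨a, ha, y, hy⟩ := hstep n u
    have : Y n u = fun t => y ⌊a * t⌋₊ := funext hy
    rw [this]
    exact cadlag_step ha y
  rw [Metric.tendsto_atTop]
  intro ε hε
  obtain ⟨m₀, hm₀⟩ := step3 μ Y hY h0 hcad hC hF (fun n => hFm n F ⟨C, hC⟩ hF) htight (ε / 4)
    (by positivity)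
  obtain ⟨m₁, hm₁⟩ := Metric.tendsto_atTop.1 (step2 (D := D) hB hC hF) (ε / 4) (by positivity)
  set m := max m₀ m₁ with hm
  have h2 := hm₁ m (le_max_right _ _)
  obtain ⟨n₁, hn₁⟩ := Metric.tendsto_atTop.1
    (step1 hD hB μ Y hY hfdd hC hF (Nat.succ_pos m)) (ε / 4) (by positivity)
  obtain ⟨n₂, hn₂⟩ := eventually_atTop.1
    (hm₀ (m + 1) ((le_max_left _ _).trans (Nat.le_succ _)) (Nat.succ_pos _))
  refine ⟨max n₁ n₂, fun n hn => ?_⟩
  have e1 := hn₁ n ((le_max_left _ _).trans hn)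
  have e2 := hn₂ n ((le_max_right _ _).trans hn)
  rw [Real.dist_eq] at *
  have t1 := abs_sub_le (∫ u, F (Y n u) ∂μ) (∫ u, F (fun t => Y n u (grid (m + 1) t)) ∂μ)
    (∫ w, F (fun t => B t w) ∂ν)
  have t2 := abs_sub_le (∫ u, F (fun t => Y n u (grid (m + 1) t)) ∂μ)
    (∫ w, F (fun t => B (grid (m + 1) t) w) ∂ν) (∫ w, F (fun t => B t w) ∂ν)
  linarith

end Pool.Agent.Helper18.Qip
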